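import Pool.Agent.W290.LG.Stm

/-!
# A system solvable over all completions of `ℚ` but not over `ℚ`
-/

set_option autoImplicit false

namespace Pool.Agent.W976.LG

open Pool.Agent Pool.Agent.NPC Pool.Agent.H881R2.Mat Pool.Agent.W290.LG

/-- `(x ^ 2 - 2) * (x ^ 2 - 17) * (x ^ 2 - 34) = 0` -/
def T0 : List ER.Con :=
  [.one 1, .add 1 1 2, .add 2 2 3, .add 3 3 4, .add 4 4 5, .add 5 1 6, .add 6 6 7,
    .mul 0 0 8, .add 9 2 8, .add 10 6 8, .add 11 7 8, .mul 9 10 12, .mul 12 11 13,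
    .add 13 13 13]

/-- the values of the variables -/
def val {K : Type} [Field K] (x : K) : ℕ → K
  | 0 => x
  | 1 => 1
  | 2 => 2
  | 3 => 4
  | 4 => 8
  | 5 => 16
  | 6 => 17
  | 7 => 34
  | 8 => x * x
  | 9 => x * x - 2
  | 10 => x * x - 17
  | 11 => x * x - 34
  | 12 => (x * x - 2) * (x * x - 17)
  | _ => 0

lemma not_sq_rat (n : ℕ) (h : ¬ IsSquare n) (x : ℚ) : x * x ≠ (n : ℚ) := by
  intro hx
  apply h
  rw [← Rat.isSquare_natCast_iff]
  exact ⟨x, hx.symm⟩

lemma nsq (n k : ℕ) (h1 : k * k < n) (h2 : n < (k + 1) * (k + 1)) : ¬ IsSquare n := by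
  rintro ⟨r, hr⟩
  rw [hr] at h1 h2
  have e1 := Nat.mul_self_lt_mul_self_iff.1 h1
  have e2 := Nat.mul_self_lt_mul_self_iff.1 h2
  omega

theorem t_E : S_E := by
  refine ⟨T0, ?_, ?_⟩
  · rintro ⟨v, hv⟩
    simp only [T0, List.mem_cons, List.not_mem_nil, or_false, forall_eq_or_imp, forall_eq,
      HoldsK] at hv
    obtain ⟨a1, a2, a3, a4, a5, a6, a7, a8, a9, a10, a11, a12, a13, a14⟩ := hv
    have h13 : v 13 = 0 := by linarith
    rw [h13] at a13
    rcases mul_eq_zero.1 a13 with h | h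
    · rw [h] at a12
      rcases mul_eq_zero.1 a12 with h' | h'
      · exact not_sq_rat 2 (nsq 2 1 (by norm_num) (by norm_num)) (v 0) (by
          push_cast; linarith)
      · exact not_sq_rat 17 (nsq 17 4 (by norm_num) (by norm_num)) (v 0) (by
          push_cast; linarith)
    · exact not_sq_rat 34 (nsq 34 5 (by norm_num) (by norm_num)) (v 0) (by
          push_cast; linarith)
  · intro K _ _ hx
    obtain ⟨x, hx⟩ := hx
    refine ⟨val x, ?_⟩
    have h0 : (x * x - 2) * (x * x - 17) * (x * x - 34) = 0 := by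
      rcases hx with h | h | h <;> rw [← pow_two, h] <;> ring
    simp only [T0, List.mem_cons, List.not_mem_nil, or_false, forall_eq_or_imp, forall_eq,
      HoldsK, val]
    refine ⟨trivial, ?_, ?_, ?_, ?_, ?_, ?_, trivial, ?_, ?_, ?_, trivial, h0, ?_⟩ <;> ring

end Pool.Agent.W976.LG
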